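import Pool.Agent.H77.RZ.Stmts
import Pool.Agent.H10.AVR.DNF

/-! # RZ, module DN: lower bound for the number of curves of the family -/

set_option autoImplicit false

namespace Pool.RZ

open Polynomial Pool.AVR Pool.AVS

namespace DN

open Pool.AVR.H10DNF

section Cubics

variable {F : Type} [Field F]

lemma disc_T12 (h2 : (2 : F) ≠ 0) {t : F × F × F} (ht : T12 t) : disc t.1 t.2.1 t.2.2 ≠ 0 := by
  obtain ⟨e, β, γ, hq, rfl⟩ := ht
  have h1 : disc (β - e) (γ - e * β) (-(e * γ)) =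
      (β ^ 2 - 4 * γ) * (e ^ 2 + β * e + γ) ^ 2 := by
    unfold disc
    ring
  change disc (β - e) (γ - e * β) (-(e * γ)) ≠ 0
  rw [h1]
  refine mul_ne_zero ?_ (pow_ne_zero _ (hq e))
  intro h
  apply hq (-β / 2)
  field_simp
  linear_combination (-1 : F) * h

lemma cube_root [Finite F] (h3 : (3 : F) = 0) (c : F) : ∃ x : F, x ^ 3 = c := by
  have hp : CharP F 3 := by
    have : Fact (Nat.Prime 3) := ⟨by norm_num⟩
    refine (CharP.charP_iff_prime_eq_zero (by norm_num)).mpr ?_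
    exact_mod_cast h3
  have : Fact (Nat.Prime 3) := ⟨by norm_num⟩
  have hinj : Function.Injective (frobenius F 3) := frobenius_inj F 3
  obtain ⟨x, hx⟩ := (Finite.injective_iff_surjective.mp hinj) c
  exact ⟨x, by simpa [frobenius_def] using hx⟩

lemma frac_eval (a b c N D : F) (hD : D ≠ 0) : (N / D) ^ 3 + a * (N / D) ^ 2 + b * (N / D) + c =
    (N ^ 3 + a * N ^ 2 * D + b * N * D ^ 2 + c * D ^ 3) / D ^ 3 := by
  field_simp

lemma disc_NR [Finite F] (h2 : (2 : F) ≠ 0) {t : F × F × F} (ht : NR t) :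
    disc t.1 t.2.1 t.2.2 ≠ 0 := by
  obtain ⟨a, b, c⟩ := t
  intro h
  change disc a b c = 0 at h
  unfold disc at h
  have ht' : ∀ x : F, x ^ 3 + a * x ^ 2 + b * x + c ≠ 0 := ht
  by_cases hab : a ^ 2 - 3 * b = 0
  · by_cases h3 : (3 : F) = 0
    · have ha : a = 0 := by
        have : a ^ 2 = 0 := by linear_combination hab + b * h3
        exact pow_eq_zero_iff (two_ne_zero) |>.mp this
      subst ha
      have hb : b = 0 := by
        have : b ^ 3 = 0 := by linear_combination (-1 : F) * h - (b ^ 3 + 9 * c ^ 2) * h3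
        exact pow_eq_zero_iff (three_ne_zero) |>.mp this
      subst hb
      obtain ⟨x, hx⟩ := cube_root h3 (-c)
      apply ht' x
      rw [hx]
      ring
    · have hb : b = a ^ 2 / 3 := by
        field_simp
        linear_combination (-1 : F) * hab
      subst hb
      have hc : (c - a ^ 3 / 27) ^ 2 = 0 := by
        have h27 : (27 : F) ≠ 0 := by
          have : (27 : F) = 3 ^ 3 := by norm_num
          rw [this]
          exact pow_ne_zero _ h3
        have : (27 : F) * (c - a ^ 3 / 27) ^ 2 = 0 := by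
          have h9 : (a : F) ^ 3 / 27 = a ^ 3 / 3 ^ 3 := by norm_num
          rw [h9]
          field_simp at h ⊢
          linear_combination (-27 : F) * h
        exact (mul_eq_zero.mp this).resolve_left h27
      have hc' : c = a ^ 3 / 27 := by
        have := pow_eq_zero_iff (two_ne_zero) |>.mp hc
        linear_combination this
      apply ht' (-a / 3)
      rw [hc']
      have h9 : (a : F) ^ 3 / 27 = a ^ 3 / 3 ^ 3 := by norm_num
      rw [h9]
      field_simp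
      ring
  · apply ht' ((9 * c - a * b) / (2 * (a ^ 2 - 3 * b)))
    have hne : (2 * (a ^ 2 - 3 * b)) ≠ 0 := mul_ne_zero h2 hab
    rw [frac_eval a b c _ _ hne, div_eq_zero_iff]
    left
    linear_combination (-(2 * a ^ 3 - 9 * a * b + 27 * c)) * h

end Cubics

section Count

variable {F : Type} [Field F]

/-- The modulus. -/
noncomputable def MM (S : Finset F[X]) : F[X] := pc 0 * pc 1 * ∏ P ∈ S, P ^ 2

lemma MM_monic (S : Finset F[X]) (hS : ∀ P ∈ S, P.Monic ∧ Irreducible P) : (MM S).Monic :=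
  ((monic_X_sub_C 0).mul (monic_X_sub_C 1)).mul
    (monic_prod_of_monic _ _ (fun P hP => (hS P hP).1.pow 2))

lemma MM_deg (S : Finset F[X]) (hS : ∀ P ∈ S, P.Monic ∧ Irreducible P) :
    (MM S).natDegree = 2 + ∑ P ∈ S, (P ^ 2).natDegree := by
  unfold MM
  rw [Monic.natDegree_mul ((monic_X_sub_C 0).mul (monic_X_sub_C 1))
    (monic_prod_of_monic _ _ (fun P hP => (hS P hP).1.pow 2)),
    Monic.natDegree_mul (monic_X_sub_C 0) (monic_X_sub_C 1), natDegree_X_sub_C,
    natDegree_X_sub_C, natDegree_prod_of_monic _ _ (fun P hP => (hS P hP).1.pow 2)]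

/-- The good triples modulo the modulus. -/
def W2 (S : Finset F[X]) (M : F[X]) : Set (AdjoinRoot M × AdjoinRoot M × AdjoinRoot M) :=
  {w | ∀ f : F[X] × F[X] × F[X], AdjoinRoot.mk M f.1 = w.1 →
    AdjoinRoot.mk M f.2.1 = w.2.1 → AdjoinRoot.mk M f.2.2 = w.2.2 →
    (∀ P ∈ S, disc (AdjoinRoot.mk (P ^ 2) f.1) (AdjoinRoot.mk (P ^ 2) f.2.1)
      (AdjoinRoot.mk (P ^ 2) f.2.2) ≠ 0) ∧ T12 (evc 0 f) ∧ T12 (evc 1 f)}

lemma eval_ne (S : Finset F[X]) (hS : ∀ P ∈ S, P.Monic ∧ Irreducible P) (c : F)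
    (hc : pc c ∉ S) : (∏ P ∈ S, P ^ 2).eval c ≠ 0 := by
  rw [eval_prod, Finset.prod_ne_zero_iff]
  intro P hP h0
  rw [eval_pow] at h0
  have h1 : P.eval c = 0 := pow_eq_zero_iff (two_ne_zero) |>.mp h0
  have h2 : pc c ∣ P := dvd_iff_isRoot.mpr h1
  have h3 : pc c = P := eq_of_monic_of_associated (monic_X_sub_C c) (hS P hP).1
    ((irreducible_X_sub_C c).associated_of_dvd (hS P hP).2 h2)
  exact hc (h3 ▸ hP)

/-- Interpolation: a polynomial congruent to `f` modulo `N` with given values at `0` and `1`. -/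
lemma interp (N f : F[X]) (h0 : N.eval 0 ≠ 0) (h1 : N.eval 1 ≠ 0) (a b : F) :
    ∃ g : F[X], N ∣ g - f ∧ g.eval 0 = a ∧ g.eval 1 = b := by
  refine ⟨f + N * (C ((a - f.eval 0) / N.eval 0) +
    C ((b - f.eval 1) / N.eval 1 - (a - f.eval 0) / N.eval 0) * X), ?_, ?_, ?_⟩
  · rw [add_sub_cancel_left]
    exact dvd_mul_right _ _
  · simp only [eval_add, eval_mul, eval_C, eval_X, mul_zero, add_zero]
    field_simp
    ring
  · simp only [eval_add, eval_mul, eval_C, eval_X, mul_one]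
    field_simp
    ring

lemma W2_card [Finite F] (S : Finset F[X]) (hS : ∀ P ∈ S, P.Monic ∧ Irreducible P)
    (hS0 : pc 0 ∉ S) (hS1 : pc 1 ∉ S) :
    (∏ P ∈ S, (GP P).ncard) * {t : F × F × F | T12 t}.ncard ^ 2 ≤ (W2 S (MM S)).ncard := by
  classical
  set N : F[X] := ∏ P ∈ S, P ^ 2 with hNdef
  set M : F[X] := MM S with hMdef
  have hMN : M = pc 0 * pc 1 * N := rfl
  have hM : M.Monic := MM_monic S hS
  have hdvdN : ∀ P ∈ S, P ^ 2 ∣ N := fun P hP => Finset.dvd_prod_of_mem _ hP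
  have hNM : N ∣ M := Dvd.intro_left _ hMN.symm
  have h0M : pc (0 : F) ∣ M := by
    rw [hMN, mul_assoc]
    exact dvd_mul_right _ _
  have h1M : pc (1 : F) ∣ M := by
    rw [hMN, mul_comm (pc 0) (pc 1), mul_assoc]
    exact dvd_mul_right _ _
  have hN0 : N.eval 0 ≠ 0 := eval_ne S hS 0 hS0
  have hN1 : N.eval 1 ≠ 0 := eval_ne S hS 1 hS1
  have hfin : Finite (AdjoinRoot M) := adj_finite hM
  have hlift : ∀ t : (∀ P : S, GP P.1) × {t : F × F × F | T12 t} × {t : F × F × F | T12 t},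
      ∃ f : F[X] × F[X] × F[X], (∀ P : S,
      (AdjoinRoot.mk (P.1 ^ 2) f.1, AdjoinRoot.mk (P.1 ^ 2) f.2.1,
        AdjoinRoot.mk (P.1 ^ 2) f.2.2) = (t.1 P).1) ∧ evc 0 f = t.2.1.1 ∧ evc 1 f = t.2.2.1 := by
    rintro ⟨t, a, b⟩
    obtain ⟨f1, h1⟩ := crt S hS (fun P => (t P).1.1)
    obtain ⟨f2, h2⟩ := crt S hS (fun P => (t P).1.2.1)
    obtain ⟨f3, h3⟩ := crt S hS (fun P => (t P).1.2.2)
    obtain ⟨g1, hg1, ha1, hb1⟩ := interp N f1 hN0 hN1 a.1.1 b.1.1
    obtain ⟨g2, hg2, ha2, hb2⟩ := interp N f2 hN0 hN1 a.1.2.1 b.1.2.1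
    obtain ⟨g3, hg3, ha3, hb3⟩ := interp N f3 hN0 hN1 a.1.2.2 b.1.2.2
    have hred : ∀ P : S, ∀ u v : F[X], N ∣ u - v →
        AdjoinRoot.mk (P.1 ^ 2) u = AdjoinRoot.mk (P.1 ^ 2) v := by
      intro P u v h
      rw [AdjoinRoot.mk_eq_mk]
      exact (hdvdN P.1 P.2).trans h
    refine ⟨(g1, g2, g3), fun P => ?_, ?_, ?_⟩
    · simp only [hred P _ _ hg1, hred P _ _ hg2, hred P _ _ hg3, h1 P, h2 P, h3 P]
    · unfold evc
      simp only [ha1, ha2, ha3]
    · unfold evc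
      simp only [hb1, hb2, hb3]
  choose f hf hfa hfb using hlift
  have hred : ∀ P ∈ S, ∀ u v : F[X], AdjoinRoot.mk M u = AdjoinRoot.mk M v →
      AdjoinRoot.mk (P ^ 2) u = AdjoinRoot.mk (P ^ 2) v := by
    intro P hP u v h
    rw [AdjoinRoot.mk_eq_mk] at h ⊢
    exact ((hdvdN P hP).trans hNM).trans h
  have hev : ∀ c : F, pc c ∣ M → ∀ u v : F[X], AdjoinRoot.mk M u = AdjoinRoot.mk M v →
      u.eval c = v.eval c := by
    intro c hc u v h
    rw [AdjoinRoot.mk_eq_mk] at h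
    have h1 : (u - v).eval c = 0 := dvd_iff_isRoot.mp (hc.trans h)
    rw [eval_sub] at h1
    exact sub_eq_zero.mp h1
  have hevc : ∀ c : F, pc c ∣ M → ∀ u v : F[X] × F[X] × F[X],
      AdjoinRoot.mk M u.1 = AdjoinRoot.mk M v.1 → AdjoinRoot.mk M u.2.1 = AdjoinRoot.mk M v.2.1 →
      AdjoinRoot.mk M u.2.2 = AdjoinRoot.mk M v.2.2 → evc c u = evc c v := by
    intro c hc u v h1 h2 h3
    unfold evc
    rw [hev c hc _ _ h1, hev c hc _ _ h2, hev c hc _ _ h3]
  let Φ : ((∀ P : S, GP P.1) × {t : F × F × F | T12 t} × {t : F × F × F | T12 t}) →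
      W2 S M := fun t =>
    ⟨(AdjoinRoot.mk M (f t).1, AdjoinRoot.mk M (f t).2.1, AdjoinRoot.mk M (f t).2.2), by
      intro g h1 h2 h3
      refine ⟨?_, ?_, ?_⟩
      · intro P hP
        rw [hred P hP _ _ h1, hred P hP _ _ h2, hred P hP _ _ h3]
        have h := hf t ⟨P, hP⟩
        have h4 := (t.1 ⟨P, hP⟩).2
        rw [← h] at h4
        exact h4
      · rw [hevc 0 h0M g (f t) h1 h2 h3, hfa t]
        exact t.2.1.2
      · rw [hevc 1 h1M g (f t) h1 h2 h3, hfb t]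
        exact t.2.2.2⟩
  have hΦ : Function.Injective Φ := by
    intro t t' h
    have h0 := congrArg Subtype.val h
    simp only [Φ, Prod.mk.injEq] at h0
    have e1 : t.1 = t'.1 := by
      funext P
      apply Subtype.ext
      rw [← hf t P, ← hf t' P, hred P.1 P.2 _ _ h0.1, hred P.1 P.2 _ _ h0.2.1,
        hred P.1 P.2 _ _ h0.2.2]
    have e2 : t.2.1 = t'.2.1 := by
      apply Subtype.ext
      rw [← hfa t, ← hfa t']
      exact hevc 0 h0M _ _ h0.1 h0.2.1 h0.2.2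
    have e3 : t.2.2 = t'.2.2 := by
      apply Subtype.ext
      rw [← hfb t, ← hfb t']
      exact hevc 1 h1M _ _ h0.1 h0.2.1 h0.2.2
    exact Prod.ext e1 (Prod.ext e2 e3)
  have h1 := Nat.card_le_card_of_injective Φ hΦ
  rw [Nat.card_prod, Nat.card_prod, Nat.card_pi] at h1
  calc (∏ P ∈ S, (GP P).ncard) * {t : F × F × F | T12 t}.ncard ^ 2 =
        (∏ P : S, Nat.card (GP P.1)) * (Nat.card {t : F × F × F | T12 t} *
          Nat.card {t : F × F × F | T12 t}) := by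
        rw [← Finset.prod_coe_sort, sq]
        rfl
    _ ≤ Nat.card (W2 S M) := h1
    _ = (W2 S M).ncard := rfl

/-- The conditions at infinity. -/
def V2 (F : Type) [Field F] : Set (DualNumber F × DualNumber F × DualNumber F) :=
  {v | NR (v.1.fst, v.2.1.fst, v.2.2.fst)}

lemma V2_card [Finite F] :
    {t : F × F × F | NR t}.ncard * Nat.card F ^ 3 ≤ (V2 F).ncard := by
  have hfd : Finite (DualNumber F) := inferInstanceAs (Finite (F × F))
  let Φ : {t : F × F × F | NR t} × (F × F × F) → V2 F := fun p =>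
    ⟨((p.1.1.1, p.2.1), (p.1.1.2.1, p.2.2.1), (p.1.1.2.2, p.2.2.2)), p.1.2⟩
  have hΦ : Function.Injective Φ := by
    rintro ⟨⟨⟨a, b, c⟩, h⟩, d, e, g⟩ ⟨⟨⟨a', b', c'⟩, h'⟩, d', e', g'⟩ hh
    have h0 := congrArg Subtype.val hh
    simp only [Φ, Prod.mk.injEq] at h0
    obtain ⟨⟨rfl, rfl⟩, ⟨rfl, rfl⟩, rfl, rfl⟩ := h0
    rfl
  have h1 := Nat.card_le_card_of_injective Φ hΦ
  rw [Nat.card_prod, Nat.card_prod, Nat.card_prod] at h1
  calc {t : F × F × F | NR t}.ncard * Nat.card F ^ 3 =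
      Nat.card {t : F × F × F | NR t} * (Nat.card F * (Nat.card F * Nat.card F)) := by
        rw [show Nat.card F ^ 3 = Nat.card F * (Nat.card F * Nat.card F) by ring]
        rfl
    _ ≤ Nat.card (V2 F) := h1
    _ = (V2 F).ncard := rfl

end Count

end DN

open DN Pool.AVR.H10DNF in
theorem dn_thm (hEQF : Pool.AVR.EQFStmt) (hTAI : Pool.AVR.TAIStmt) (hTA5 : Pool.AVR.TA5Stmt)
    (hTOP : Pool.AVR.TOPStmt) : DNStmt := by
  classical
  intro F _ _ h2 ε hε
  have hTT : TAIc F := by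
    by_cases h3 : (3 : F) = 0
    · exact hTAI F h3
    · exact hTA5 F h2 h3
  obtain ⟨D, N₀, hD⟩ := hTT ε hε
  refine ⟨D, fun S hS hS0 hS1 hSD => ?_⟩
  set M : F[X] := MM S with hMdef
  have hM : M.Monic := MM_monic S hS
  have hFmF : ∀ n, (Fm F n).Finite := fun n =>
    (Fam_finite n).subset ((Set.sep_subset _ _).trans (Set.sep_subset _ _))
  refine ⟨max N₀ (M.natDegree + 1), fun n hn => ⟨hFmF n, ?_⟩⟩
  have hnN : N₀ ≤ n := (le_max_left _ _).trans hn
  have hnM : M.natDegree + 1 ≤ n := (le_max_right _ _).trans hn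
  set q : ℝ := (Nat.card F : ℝ) with hq
  have hq0 : 0 < q := by rw [hq]; exact_mod_cast Nat.card_pos
  set A : Set (F[X] × F[X] × F[X]) := {f ∈ Fam F n | (AdjoinRoot.mk M f.1, AdjoinRoot.mk M f.2.1,
    AdjoinRoot.mk M f.2.2) ∈ W2 S M ∧
        (top (2 * n) f.1, top (4 * n) f.2.1, top (6 * n) f.2.2) ∈ V2 F} with hA
  set B : Set (F[X] × F[X] × F[X]) := {f ∈ Fam F n | ∃ P : F[X], P.Monic ∧ Irreducible P ∧
    D < P.natDegree ∧ P ^ 2 ∣ disc f.1 f.2.1 f.2.2} with hB
  have hcount := hEQF F n M hM.ne_zero (by omega) (by omega) (W2 S M) (V2 F)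
  rw [← hA] at hcount
  have hBc : (B.ncard : ℝ) ≤ ε * q ^ (12 * n + 3) := hD n hnN
  have hAfin : A.Finite := (Fam_finite n).subset (Set.sep_subset _ _)
  have hBfin : B.Finite := (Fam_finite n).subset (Set.sep_subset _ _)
  have hsub : A ⊆ Fm F n ∪ B := by
    rintro f ⟨hf, hfW, hfV⟩
    by_cases hfB : f ∈ B
    · exact Or.inr hfB
    obtain ⟨hW1, hW2, hW3⟩ := hfW f rfl rfl rfl
    have hNR : NR (top3 n f) := hfV
    have hdne := disc_NR h2 hNR
    have hcoef : (disc f.1 f.2.1 f.2.2).coeff (12 * n) =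
        disc (top3 n f).1 (top3 n f).2.1 (top3 n f).2.2 := by
      have h := (hTOP F n 0 (by omega)).2 f hf
      have h' := congrArg (TrivSqZeroExt.fstHom F F F) h
      have hm := disc_map ((TrivSqZeroExt.fstHom F F F) : DualNumber F →+* F)
        (top (2 * n) f.1) (top (4 * n) f.2.1) (top (6 * n) f.2.2)
      exact h'.trans hm
    have hdeg : 12 * n ≤ (disc f.1 f.2.1 f.2.2).natDegree := by
      apply le_natDegree_of_ne_zero
      rw [hcoef]
      exact hdne
    have hne : disc f.1 f.2.1 f.2.2 ≠ 0 := by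
      intro h0
      apply hdne
      rw [← hcoef, h0, coeff_zero]
    have hpc : ∀ c : F, T12 (evc c f) → ¬ (pc c) ∣ disc f.1 f.2.1 f.2.2 := by
      intro c hc hdvd
      have h0 : (disc f.1 f.2.1 f.2.2).eval c = 0 := dvd_iff_isRoot.mp hdvd
      have h1 := disc_map (evalRingHom c) f.1 f.2.1 f.2.2
      simp only [coe_evalRingHom] at h1
      rw [h1] at h0
      exact disc_T12 h2 hc h0
    refine Or.inl ⟨⟨hf, ?_, by omega⟩, hW2, hW3, hNR⟩
    rw [squarefree_iff_irreducible_sq_not_dvd_of_ne_zero hne]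
    intro P hP hdvd
    set Q := normalize P with hQ
    have hass : Associated Q P := normalize_associated P
    have hQm : Q.Monic := monic_normalize hP.ne_zero
    have hQi : Irreducible Q := hass.symm.irreducible hP
    have hQd : Q ^ 2 ∣ disc f.1 f.2.1 f.2.2 := by
      refine dvd_trans ?_ hdvd
      rw [sq]
      exact mul_dvd_mul hass.dvd hass.dvd
    by_cases hdeg : Q.natDegree ≤ D
    · by_cases hQ0 : Q = pc 0
      · apply hpc 0 hW2
        rw [← hQ0]
        exact (dvd_pow_self Q two_ne_zero).trans hQd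
      by_cases hQ1 : Q = pc 1
      · apply hpc 1 hW3
        rw [← hQ1]
        exact (dvd_pow_self Q two_ne_zero).trans hQd
      have hQS := hSD Q hQm hQi hdeg hQ0 hQ1
      have := hW1 Q hQS
      apply this
      rw [← disc_map, AdjoinRoot.mk_eq_zero]
      exact hQd
    · exact hfB ⟨hf, Q, hQm, hQi, by omega, hQd⟩
  have hle : (A.ncard : ℝ) ≤ (Fm F n).ncard + B.ncard := by
    have h1 := (Set.ncard_le_ncard hsub ((hFmF n).union hBfin)).trans (Set.ncard_union_le _ _)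
    exact_mod_cast h1
  set T : ℝ := (({t : F × F × F | T12 t}.ncard : ℕ) : ℝ) with hT
  set R : ℝ := (({t : F × F × F | NR t}.ncard : ℕ) : ℝ) with hR
  set G : ℝ := ((∏ P ∈ S, (GP P).ncard : ℕ) : ℝ) with hG
  have hWc : G * T ^ 2 ≤ ((W2 S M).ncard : ℝ) := by
    rw [hG, hT]
    exact_mod_cast W2_card S hS hS0 hS1
  have hVc : R * q ^ 3 ≤ ((V2 F).ncard : ℝ) := by
    rw [hR, hq]
    exact_mod_cast V2_card (F := F)
  have hcR : (A.ncard : ℝ) * (q ^ (3 * M.natDegree) * q ^ 6) =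
      q ^ (12 * n + 3) * ((W2 S M).ncard * (V2 F).ncard) := by
    rw [hq]
    exact_mod_cast hcount
  have hprod : ∏ P ∈ S, dens (AdjoinRoot (P ^ 2)) =
      G / q ^ (3 * ∑ P ∈ S, (P ^ 2).natDegree) := by
    have h1 : ∀ P ∈ S, dens (AdjoinRoot (P ^ 2)) =
        ((GP P).ncard : ℝ) / q ^ (3 * (P ^ 2).natDegree) := by
      intro P hP
      have : (Nat.card (AdjoinRoot (P ^ 2)) : ℝ) = q ^ (P ^ 2).natDegree := by
        rw [adj_card ((hS P hP).1.pow 2), hq]
        push_cast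
        rfl
      unfold dens
      rw [this, ← pow_mul, mul_comm (P ^ 2).natDegree 3]
      rfl
    rw [Finset.prod_congr rfl h1, Finset.prod_div_distrib, Finset.prod_pow_eq_pow_sum,
      ← Finset.mul_sum, hG]
    push_cast
    rfl
  have hdd : dd F S = R / q ^ 3 * (T / q ^ 3) ^ 2 *
      (G / q ^ (3 * ∑ P ∈ S, (P ^ 2).natDegree)) := by
    unfold dd d3 d12
    rw [hprod]
  have hMd : q ^ (3 * M.natDegree) = q ^ 6 * q ^ (3 * ∑ P ∈ S, (P ^ 2).natDegree) := by
    rw [hMdef, MM_deg S hS, ← pow_add]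
    congr 1
    ring
  have hR0 : 0 ≤ R := by rw [hR]; positivity
  have hT0 : 0 ≤ T := by rw [hT]; positivity
  have hG0 : 0 ≤ G := by rw [hG]; positivity
  have hAlow : q ^ (12 * n + 3) * dd F S ≤ A.ncard := by
    have hden : 0 < q ^ (3 * M.natDegree) * q ^ 6 := by positivity
    have hAeq : (A.ncard : ℝ) = q ^ (12 * n + 3) * ((W2 S M).ncard * (V2 F).ncard) /
        (q ^ (3 * M.natDegree) * q ^ 6) := by
      rw [eq_div_iff hden.ne', hcR]
    rw [hAeq, le_div_iff₀ hden, hdd, hMd]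
    have h3 : q ^ (12 * n + 3) * (R / q ^ 3 * (T / q ^ 3) ^ 2 *
        (G / q ^ (3 * ∑ P ∈ S, (P ^ 2).natDegree))) *
        (q ^ 6 * q ^ (3 * ∑ P ∈ S, (P ^ 2).natDegree) * q ^ 6) =
        q ^ (12 * n + 3) * ((G * T ^ 2) * (R * q ^ 3)) := by
      field_simp
    rw [h3]
    gcongr
  have : q ^ (12 * n + 3) * (dd F S - ε) =
      q ^ (12 * n + 3) * dd F S - ε * q ^ (12 * n + 3) := by ring
  rw [this]
  linarith

end Pool.RZ
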