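import Pool.Agent.H77.RZ.Stmts
import Pool.Agent.H10.AVR.DNF
import Pool.Agent.H25.AVR.NUM

/-! # RZ, module NU: upper bound for the number of matrices -/

set_option autoImplicit false

namespace Pool.RZ

open Polynomial Pool.AVR Pool.AVS Matrix

namespace NU

section General

lemma ia_map {R S : Type} [CommRing R] [CommRing S] (φ : R →+* S)
    (B : Matrix (Fin 3) (Fin 3) R) : ia (B.map φ) = φ (ia B) := by
  unfold ia
  simp only [Matrix.map_apply, map_neg, map_add, map_mul, map_ofNat]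

lemma ib_map {R S : Type} [CommRing R] [CommRing S] (φ : R →+* S)
    (B : Matrix (Fin 3) (Fin 3) R) : ib (B.map φ) = φ (ib B) := by
  unfold ib
  simp only [Matrix.map_apply, map_sub, map_add, map_mul, map_pow, map_ofNat]

lemma ic_map {R S : Type} [CommRing R] [CommRing S] (φ : R →+* S)
    (B : Matrix (Fin 3) (Fin 3) R) : ic (B.map φ) = φ (ic B) := by
  unfold ic
  rw [RingHom.map_det]
  rfl

open Classical in
lemma ind_sum {α : Type} [Finite α] (s W : Set α) (hW : W ⊆ s) :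
    ∑ᶠ x ∈ s, (if x ∈ W then (1 : ℝ) else 0) = W.ncard := by
  rw [finsum_mem_eq_finite_toFinset_sum _ (Set.toFinite s), Finset.sum_boole,
    Set.ncard_eq_toFinset_card W (Set.toFinite W)]
  congr 2
  ext x
  simp only [Finset.mem_filter, Set.Finite.mem_toFinset]
  exact ⟨fun h => h.2, fun h => ⟨hW h, h⟩⟩

end General

section Local

variable {F : Type} [Field F]

/-- The condition at a finite place, for integral matrices. -/
def Cond (c : F) (B : Matrix (Fin 3) (Fin 3) F[X]) : Prop :=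
  T12 (evc c (ia B, ib B, ic B)) ∧ TrivC c B

/-- The condition at infinity, for integral matrices. -/
def CondI (B : Matrix (Fin 3) (Fin 3) F[X]) : Prop :=
  NR (evc 0 (ia B, ib B, ic B))

/-- The condition modulo `M`. -/
def CondL (c : F) (M : F[X]) (B : Matrix (Fin 3) (Fin 3) (AdjoinRoot M)) : Prop :=
  ∃ B0 : Matrix (Fin 3) (Fin 3) F[X], B0.map (AdjoinRoot.mk M) = B ∧ Cond c B0

/-- The good matrices modulo `M`. -/
def Wm (M : F[X]) : Set (Matrix (Fin 3) (Fin 3) (AdjoinRoot M)) :=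
  {B | Bᵀ = B ∧ (M = pc 0 → CondL 0 M B) ∧ (M = pc 1 → CondL 1 M B) ∧
    (M ≠ pc 0 → M ≠ pc 1 → B ∈ NUM.Good (AdjoinRoot M))}

/-- The good matrices at infinity. -/
def Vi (F : Type) [Field F] : Set (Matrix (Fin 3) (Fin 3) (AdjoinRoot ((X : F[X]) ^ 1))) :=
  {B | Bᵀ = B ∧ ∃ B0 : Matrix (Fin 3) (Fin 3) F[X], B0.map (AdjoinRoot.mk (X ^ 1)) = B ∧
    CondI B0}

/-- The good matrices over `F`. -/
def XX (F : Type) [Field F] (T : F × F × F → Prop) (Q : Matrix (Fin 3) (Fin 3) F → Prop) :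
    Set (Matrix (Fin 3) (Fin 3) F) :=
  {B | Bᵀ = B ∧ T (ia B, ib B, ic B) ∧ Q B}

open Classical in
lemma XX_card [Finite F] (T : F × F × F → Prop) (Q : Matrix (Fin 3) (Fin 3) F → Prop) (k : ℕ)
    (h : ∀ t, T t → {B : Matrix (Fin 3) (Fin 3) F | B ∈ Fb t.1 t.2.1 t.2.2 ∧ Q B}.ncard ≤ k) :
    (XX F T Q).ncard ≤ k * {t : F × F × F | T t}.ncard := by
  have : Fintype F := Fintype.ofFinite F
  rw [Set.ncard_eq_toFinset_card', Set.ncard_eq_toFinset_card']
  refine Finset.card_le_mul_card_image_of_maps_to (f := fun B => (ia B, ib B, ic B)) ?_ _ ?_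
  · intro B hB
    rw [Set.mem_toFinset] at hB ⊢
    exact hB.2.1
  · intro t ht
    rw [Set.mem_toFinset] at ht
    refine le_trans ?_ (h t ht)
    rw [Set.ncard_eq_toFinset_card']
    refine Finset.card_le_card ?_
    intro B hB
    rw [Finset.mem_filter, Set.mem_toFinset] at hB
    rw [Set.mem_toFinset]
    obtain ⟨⟨h1, -, h3⟩, h4⟩ := hB
    refine ⟨⟨h1, ?_, ?_, ?_⟩, h3⟩
    · exact congrArg (fun t : F × F × F => t.1) h4
    · exact congrArg (fun t : F × F × F => t.2.1) h4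
    · exact congrArg (fun t : F × F × F => t.2.2) h4

lemma transfer [Finite F] {M : F[X]} (φ : AdjoinRoot M →+* F) (hφ : Function.Injective φ)
    (W : Set (Matrix (Fin 3) (Fin 3) (AdjoinRoot M))) (Y : Set (Matrix (Fin 3) (Fin 3) F))
    (h : ∀ B ∈ W, B.map φ ∈ Y) : W.ncard ≤ Y.ncard := by
  refine Set.ncard_le_ncard_of_injOn (fun B => B.map φ) h ?_ (Set.toFinite Y)
  intro B _ B' _ hh
  ext i j
  apply hφ
  have := congrFun (congrFun hh i) j
  exact this

/-- Reduction modulo `t - c`. -/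
noncomputable def ph (c : F) (M : F[X]) (hM : M.eval c = 0) : AdjoinRoot M →+* F :=
  AdjoinRoot.lift (RingHom.id F) c (by rw [eval₂_id]; exact hM)

lemma ph_mk (c : F) (M : F[X]) (hM : M.eval c = 0) (p : F[X]) :
    ph c M hM (AdjoinRoot.mk M p) = p.eval c := by
  unfold ph
  rw [AdjoinRoot.lift_mk, eval₂_id]

lemma ph_inj (c : F) (M : F[X]) (hM : M.eval c = 0) (hd : M ∣ pc c) :
    Function.Injective (ph c M hM) := by
  rw [injective_iff_map_eq_zero]
  intro x hx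
  obtain ⟨p, rfl⟩ := AdjoinRoot.mk_surjective x
  rw [ph_mk] at hx
  rw [AdjoinRoot.mk_eq_zero]
  exact hd.trans (dvd_iff_isRoot.mpr hx)

lemma map_ph (c : F) (M : F[X]) (hM : M.eval c = 0) (B0 : Matrix (Fin 3) (Fin 3) F[X]) :
    (B0.map (AdjoinRoot.mk M)).map (ph c M hM) = B0.map (eval c) := by
  ext i j
  simp only [Matrix.map_apply]
  exact ph_mk c M hM _

lemma inv_eval (c : F) (B0 : Matrix (Fin 3) (Fin 3) F[X]) :
    (ia (B0.map (eval c)), ib (B0.map (eval c)), ic (B0.map (eval c))) =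
      evc c (ia B0, ib B0, ic B0) := by
  have h : B0.map (eval c) = B0.map (evalRingHom c) := rfl
  unfold evc
  rw [h, ia_map, ib_map, ic_map]
  rfl

lemma Wm_card_lin (hFB1 : FB1Stmt) [Finite F] (h2 : (2 : F) ≠ 0) (c : F) (hc : c = 0 ∨ c = 1) :
    2 * (Wm (pc c)).ncard ≤ (Nat.card F ^ 3 - Nat.card F) * {t : F × F × F | T12 t}.ncard := by
  have hM : (pc c).eval c = 0 := by simp
  have h1 : (Wm (pc c)).ncard ≤ (XX F T12 (fun B => ∃ z : Fin 3 → F, z ≠ 0 ∧
      bil (AA F) z z = 0 ∧ bil B z z = 0)).ncard := by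
    refine transfer (ph c (pc c) hM) (ph_inj c (pc c) hM dvd_rfl) _ _ ?_
    intro B hB
    obtain ⟨hB1, hB2, hB3, -⟩ := hB
    have hL : CondL c (pc c) B := by
      rcases hc with rfl | rfl
      · exact hB2 rfl
      · exact hB3 rfl
    obtain ⟨B0, rfl, hT, z, hz⟩ := hL
    refine ⟨?_, ?_, z, hz.1, hz.2.1, ?_⟩
    · rw [← Matrix.transpose_map, hB1]
    · rw [map_ph, inv_eval]
      exact hT
    · rw [map_ph]
      exact hz.2.2
  have h3 := XX_card (F := F) T12 (fun B => ∃ z : Fin 3 → F, z ≠ 0 ∧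
      bil (AA F) z z = 0 ∧ bil B z z = 0) ((Nat.card F ^ 3 - Nat.card F) / 2) (by
        intro t ht
        have := hFB1 F h2 t ht
        rw [Nat.le_div_iff_mul_le (by norm_num), mul_comm]
        exact this)
  have h4 := h1.trans h3
  calc 2 * (Wm (pc c)).ncard ≤
      2 * ((Nat.card F ^ 3 - Nat.card F) / 2 * {t : F × F × F | T12 t}.ncard) :=
        Nat.mul_le_mul_left 2 h4
    _ = (2 * ((Nat.card F ^ 3 - Nat.card F) / 2)) * {t : F × F × F | T12 t}.ncard := by ring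
    _ ≤ (Nat.card F ^ 3 - Nat.card F) * {t : F × F × F | T12 t}.ncard :=
        Nat.mul_le_mul_right _ (Nat.mul_div_le _ 2)

lemma Vi_card (hFB2 : FB2Stmt) [Finite F] (h2 : (2 : F) ≠ 0) :
    (Vi F).ncard ≤ (Nat.card F ^ 3 - Nat.card F) * {t : F × F × F | NR t}.ncard := by
  have hM : ((X : F[X]) ^ 1).eval 0 = 0 := by simp
  have hd : ((X : F[X]) ^ 1) ∣ pc 0 := by
    rw [pow_one, pc, C_0, sub_zero]
  have h1 : (Vi F).ncard ≤ (XX F NR (fun _ => True)).ncard := by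
    refine transfer (ph 0 (X ^ 1) hM) (ph_inj 0 (X ^ 1) hM hd) _ _ ?_
    intro B hB
    obtain ⟨hB1, B0, rfl, hT⟩ := hB
    refine ⟨?_, ?_, trivial⟩
    · rw [← Matrix.transpose_map, hB1]
    · rw [map_ph, inv_eval]
      exact hT
  refine h1.trans (XX_card (F := F) NR (fun _ => True) (Nat.card F ^ 3 - Nat.card F) ?_)
  intro t ht
  refine le_trans (le_of_eq ?_) (hFB2 F h2 t ht)
  congr 1
  ext B
  simp

end Local

end NU

open NU in
theorem nu_thm (hEQP : Pool.AVS.EQPStmt) (hBIN : Pool.AVS.BINStmt) (hCHI : Pool.AVS.CHIStmt)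
    (hLDT : Pool.AVR.LDTStmt) (hLN2 : Pool.AVR.LN2Stmt) (hFB1 : FB1Stmt) (hFB2 : FB2Stmt) :
    NUStmt := by
  classical
  intro F _ _ h2 S hS hS0 hS1
  have hLS := (hLN2 F).1
  have hsq : ∀ P ∈ S, ∀ c : F, P ^ 2 ≠ pc c := by
    intro P hP c h
    have h1 := congrArg natDegree h
    rw [natDegree_pow, natDegree_X_sub_C] at h1
    omega
  have h01 : pc (0 : F) ≠ pc 1 := by
    intro h
    have h1 := congrArg (eval 0) h
    simp at h1
  set T : Finset F[X] := insert (pc 0) (insert (pc 1) (S.image fun P => P ^ 2)) with hT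
  have hTm : ∀ M ∈ T, ∃ P : F[X], ∃ e : ℕ, P.Monic ∧ Irreducible P ∧ M = P ^ e ∧
      ((e = 1 ∧ (P = pc 0 ∨ P = pc 1)) ∨ (e = 2 ∧ P ∈ S)) := by
    intro M hM
    rw [hT, Finset.mem_insert, Finset.mem_insert, Finset.mem_image] at hM
    rcases hM with rfl | rfl | ⟨P, hP, rfl⟩
    · exact ⟨pc 0, 1, monic_X_sub_C 0, irreducible_X_sub_C 0, (pow_one _).symm,
        Or.inl ⟨rfl, Or.inl rfl⟩⟩
    · exact ⟨pc 1, 1, monic_X_sub_C 1, irreducible_X_sub_C 1, (pow_one _).symm,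
        Or.inl ⟨rfl, Or.inr rfl⟩⟩
    · exact ⟨P, 2, (hS P hP).1, (hS P hP).2, rfl, Or.inr ⟨rfl, hP⟩⟩
  have hTmon : ∀ M ∈ T, M.Monic := by
    intro M hM
    obtain ⟨P, e, h1, -, rfl, -⟩ := hTm M hM
    exact h1.pow e
  have hTco : ∀ M ∈ T, ∀ M' ∈ T, M ≠ M' → IsCoprime M M' := by
    intro M hM M' hM' hne
    obtain ⟨P, e, h1, h3, rfl, h4⟩ := hTm M hM
    obtain ⟨P', e', h1', h3', rfl, h4'⟩ := hTm M' hM'
    apply IsCoprime.pow
    rw [h3.coprime_iff_not_dvd]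
    intro hd
    have hPP : P = P' := eq_of_monic_of_associated h1 h1' (h3.associated_of_dvd h3' hd)
    subst hPP
    apply hne
    rcases h4 with ⟨rfl, h5⟩ | ⟨rfl, h5⟩
    · rcases h4' with ⟨rfl, -⟩ | ⟨rfl, h6⟩
      · rfl
      · rcases h5 with rfl | rfl
        · exact absurd h6 hS0
        · exact absurd h6 hS1
    · rcases h4' with ⟨rfl, h6⟩ | ⟨rfl, h6⟩
      · rcases h6 with rfl | rfl
        · exact absurd h5 hS0
        · exact absurd h5 hS1
      · rfl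
  refine ⟨(∑ M ∈ T, M.natDegree) + 1, fun n m hnm => ?_⟩
  have hmn : m ≤ n := by omega
  obtain ⟨hBfin, hE⟩ := hEQP F n m 1 T hmn le_rfl hTmon hTco (by omega)
    (fun M B => if B ∈ Wm M then 1 else 0) (fun B => if B ∈ Vi F then 1 else 0)
  have hq0 : (0 : ℝ) < (Nat.card F : ℝ) := by
    exact_mod_cast (Nat.card_pos : 0 < Nat.card F)
  set q : ℝ := (Nat.card F : ℝ) with hq
  have hTne : ∀ M ∈ T, Finite (AdjoinRoot M) := fun M hM => H10DNF.adj_finite (hTmon M hM)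
  -- the left hand side
  have hlow : ({B : Matrix (Fin 3) (Fin 3) F[X] | Bd n m B ∧ (∃ f ∈ Fm F n,
      (AA F[X] * B).charpoly = cubP f) ∧ TrivC 0 B ∧ TrivC 1 B}.ncard : ℝ) ≤
      ∑ᶠ B ∈ {B : Matrix (Fin 3) (Fin 3) F[X] | Bd n m B},
        (∏ M ∈ T, (if B.map (AdjoinRoot.mk M) ∈ Wm M then (1 : ℝ) else 0)) *
          (if (Binf n m B).map (AdjoinRoot.mk (X ^ 1)) ∈ Vi F then 1 else 0) := by
    set L : Set (Matrix (Fin 3) (Fin 3) F[X]) := {B : Matrix (Fin 3) (Fin 3) F[X] | Bd n m B ∧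
      (∃ f ∈ Fm F n, (AA F[X] * B).charpoly = cubP f) ∧ TrivC 0 B ∧ TrivC 1 B} with hL
    have hLfin : L.Finite := hBfin.subset fun B hB => hB.1
    rw [finsum_mem_eq_finite_toFinset_sum _ hBfin, Set.ncard_eq_toFinset_card L hLfin,
      Finset.card_eq_sum_ones, Nat.cast_sum]
    have hsub : hLfin.toFinset ⊆ hBfin.toFinset := by
      intro B hB
      rw [Set.Finite.mem_toFinset] at hB ⊢
      exact hB.1
    refine le_trans (Finset.sum_le_sum ?_) (Finset.sum_le_sum_of_subset_of_nonneg hsub ?_)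
    · intro B hB
      rw [Set.Finite.mem_toFinset] at hB
      obtain ⟨hB1, ⟨f, hf, hch⟩, hT0, hT1⟩ := hB
      obtain ⟨hb1, -, hb3, hb4, hb5, -⟩ := hBIN F n m hmn B hB1
      obtain ⟨hia, hib, hic⟩ := ((hCHI F[X] B hB1.1).2 f.1 f.2.1 f.2.2).mp hch
      have hfe : (ia B, ib B, ic B) = f := by rw [hia, hib, hic]
      have hW : ∀ M ∈ T, B.map (AdjoinRoot.mk M) ∈ Wm M := by
        intro M hM
        refine ⟨?_, ?_, ?_, ?_⟩
        · rw [← Matrix.transpose_map, hB1.1]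
        · intro _
          exact ⟨B, rfl, by rw [hfe]; exact hf.2.1, hT0⟩
        · intro _
          exact ⟨B, rfl, by rw [hfe]; exact hf.2.2.1, hT1⟩
        · intro hM0 hM1
          obtain ⟨P, e, h1, h3, rfl, h4⟩ := hTm M hM
          rcases h4 with ⟨rfl, h5⟩ | ⟨rfl, h5⟩
          · rcases h5 with rfl | rfl
            · exact absurd (pow_one _) hM0
            · exact absurd (pow_one _) hM1
          · refine NUM.good_of (a := AdjoinRoot.mk (P ^ 2) f.1) (b := AdjoinRoot.mk (P ^ 2) f.2.1)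
              (c := AdjoinRoot.mk (P ^ 2) f.2.2) ?_ ?_ ?_
            · rw [← Matrix.transpose_map, hB1.1]
            · exact NUM.charpoly_map (AdjoinRoot.mk (P ^ 2)) B hch
            · rw [NUM.disc_map (AdjoinRoot.mk (P ^ 2))]
              intro h0
              rw [AdjoinRoot.mk_eq_zero, pow_two] at h0
              exact h3.not_isUnit (hf.1.2.1 P h0)
      have hV : (Binf n m B).map (AdjoinRoot.mk (X ^ 1)) ∈ Vi F := by
        refine ⟨?_, Binf n m B, rfl, ?_⟩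
        · rw [← Matrix.transpose_map, hb1]
        · unfold CondI
          have hco : ∀ (k : ℕ) (p : F[X]), (p.reflect k).eval 0 = p.coeff k := by
            intro k p
            rw [← coeff_zero_eq_eval_zero, coeff_reflect, revAt_le (Nat.zero_le k), Nat.sub_zero]
          have : evc 0 (ia (Binf n m B), ib (Binf n m B), ic (Binf n m B)) = top3 n f := by
            unfold evc top3
            rw [hb3, hb4, hb5]
            simp only [hco, hia, hib, hic]
          rw [this]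
          exact hf.2.2.2
      rw [Finset.prod_congr rfl (fun M hM => if_pos (hW M hM)), Finset.prod_const_one, if_pos hV]
      simp
    · intro B _ _
      refine mul_nonneg (Finset.prod_nonneg fun M _ => ?_) ?_
      · split_ifs <;> norm_num
      · split_ifs <;> norm_num
  refine hlow.trans ?_
  rw [hE]
  have hXfin : Finite (AdjoinRoot ((X : F[X]) ^ 1)) := H10DNF.adj_finite (monic_X_pow 1)
  have hsV : ∑ᶠ B ∈ {B : Matrix (Fin 3) (Fin 3) (AdjoinRoot ((X : F[X]) ^ 1)) | Bᵀ = B},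
      (if B ∈ Vi F then (1 : ℝ) else 0) = (Vi F).ncard :=
    ind_sum _ _ (fun B hB => hB.1)
  have hsW : ∀ M ∈ T, ∑ᶠ B ∈ {B : Matrix (Fin 3) (Fin 3) (AdjoinRoot M) | Bᵀ = B},
      (if B ∈ Wm M then (1 : ℝ) else 0) = (Wm M).ncard := by
    intro M hM
    have := hTne M hM
    exact ind_sum _ _ (fun B hB => hB.1)
  rw [hsV, Finset.prod_congr rfl (fun M hM => by rw [hsW M hM] :
    ∀ M ∈ T, (∑ᶠ B ∈ {B : Matrix (Fin 3) (Fin 3) (AdjoinRoot M) | Bᵀ = B},
      (if B ∈ Wm M then (1 : ℝ) else 0)) / q ^ (6 * M.natDegree) =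
      ((Wm M).ncard : ℝ) / q ^ (6 * M.natDegree))]
  set R : ℝ := (({t : F × F × F | NR t}.ncard : ℕ) : ℝ) with hR
  set U : ℝ := (({t : F × F × F | T12 t}.ncard : ℕ) : ℝ) with hU
  have hR0 : 0 ≤ R := by rw [hR]; positivity
  have hU0 : 0 ≤ U := by rw [hU]; positivity
  have hq1 : (1 : ℝ) ≤ q := by
    rw [hq]
    exact_mod_cast (Nat.card_pos : 0 < Nat.card F)
  have hle3 : Nat.card F ≤ Nat.card F ^ 3 := Nat.le_self_pow (by norm_num) _
  have hcast : ((Nat.card F ^ 3 - Nat.card F : ℕ) : ℝ) = q ^ 3 - q := by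
    rw [Nat.cast_sub hle3, Nat.cast_pow]
  have hq3 : 0 ≤ q ^ 3 - q := by
    rw [← hcast]
    positivity
  have hVc : ((Vi F).ncard : ℝ) / q ^ (6 * 1) ≤ R / q ^ 3 * (1 - 1 / q ^ 2) := by
    have h1 := (Nat.cast_le (α := ℝ)).2 (Vi_card (F := F) hFB2 h2)
    rw [Nat.cast_mul, hcast] at h1
    rw [div_le_iff₀ (by positivity)]
    refine h1.trans (le_of_eq ?_)
    rw [← hR]
    field_simp
    ring
  have hLin : ∀ c : F, (c = 0 ∨ c = 1) → ((Wm (pc c)).ncard : ℝ) / q ^ (6 * (pc c).natDegree) ≤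
      U / q ^ 3 / 2 * (1 - 1 / q ^ 2) := by
    intro c hc
    have h1 := (Nat.cast_le (α := ℝ)).2 (Wm_card_lin (F := F) hFB1 h2 c hc)
    rw [Nat.cast_mul, Nat.cast_mul, hcast, Nat.cast_ofNat, ← hU] at h1
    rw [natDegree_X_sub_C, div_le_iff₀ (by positivity)]
    have h3 : U / q ^ 3 / 2 * (1 - 1 / q ^ 2) * q ^ (6 * 1) = (q ^ 3 - q) * U / 2 := by
      field_simp
      ring
    rw [h3]
    linarith
  have hSq : ∀ P ∈ S, ((Wm (P ^ 2)).ncard : ℝ) / q ^ (6 * (P ^ 2).natDegree) ≤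
      dens (AdjoinRoot (P ^ 2)) * (1 - 1 / q ^ (2 * P.natDegree)) := by
    intro P hP
    obtain ⟨hL, hFi, hr⟩ := hLS P (hS P hP).1 (hS P hP).2
    have h2' : IsUnit (2 : AdjoinRoot (P ^ 2)) := by
      have h5 : IsUnit (algebraMap F (AdjoinRoot (P ^ 2)) 2) :=
        (isUnit_iff_ne_zero.2 h2).map _
      rw [map_ofNat] at h5
      exact h5
    have h6 := NUM.good_card hLDT (AdjoinRoot.mk (P ^ 2) P) hL h2'
    have hcardR : (Nat.card (AdjoinRoot (P ^ 2)) : ℝ) = q ^ (2 * P.natDegree) := by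
      rw [NUM.card_eq hLDT (AdjoinRoot.mk (P ^ 2) P) hL h2', hr]
      push_cast
      rw [← pow_mul, mul_comm]
    rw [hcardR] at h6
    have h7 : (Wm (P ^ 2)).ncard ≤ (NUM.Good (AdjoinRoot (P ^ 2))).ncard := by
      refine Set.ncard_le_ncard ?_ (Set.toFinite _)
      intro B hB
      exact hB.2.2.2 (hsq P hP 0) (hsq P hP 1)
    have h8 : ((Wm (P ^ 2)).ncard : ℝ) ≤ ((NUM.Good (AdjoinRoot (P ^ 2))).ncard : ℝ) := by
      exact_mod_cast h7
    rw [div_le_iff₀ (by positivity)]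
    refine (h8.trans h6).trans (le_of_eq ?_)
    rw [natDegree_pow, ← pow_mul, mul_comm]
    congr 2
    ring
  have hinj : ∀ P ∈ S, ∀ Q ∈ S, P ^ 2 = Q ^ 2 → P = Q := by
    intro P hP Q hQ h
    have h1 : P ∣ Q ^ 2 := by
      rw [← h]
      exact dvd_pow_self P two_ne_zero
    have h3 : P ∣ Q := (hS P hP).2.prime.dvd_of_dvd_pow h1
    exact eq_of_monic_of_associated (hS P hP).1 (hS Q hQ).1
      ((hS P hP).2.associated_of_dvd (hS Q hQ).2 h3)
  have hprodT : ∏ M ∈ T, ((Wm M).ncard : ℝ) / q ^ (6 * M.natDegree) =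
      ((Wm (pc (0 : F))).ncard : ℝ) / q ^ (6 * (pc (0 : F)).natDegree) *
      (((Wm (pc (1 : F))).ncard : ℝ) / q ^ (6 * (pc (1 : F)).natDegree) *
      ∏ P ∈ S, ((Wm (P ^ 2)).ncard : ℝ) / q ^ (6 * (P ^ 2).natDegree)) := by
    rw [hT, Finset.prod_insert, Finset.prod_insert, Finset.prod_image]
    · intro P hP Q hQ h
      exact hinj P hP Q hQ h
    · rw [Finset.mem_image]
      rintro ⟨P, hP, h⟩
      exact hsq P hP 1 h
    · rw [Finset.mem_insert, Finset.mem_image]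
      rintro (h | ⟨P, hP, h⟩)
      · exact h01 h
      · exact hsq P hP 0 h
  rw [hprodT]
  have hfac : 0 ≤ 1 - 1 / q ^ 2 := by
    rw [sub_nonneg, div_le_one (by positivity)]
    exact one_le_pow₀ hq1
  have hPS : ∏ P ∈ S, ((Wm (P ^ 2)).ncard : ℝ) / q ^ (6 * (P ^ 2).natDegree) ≤
      ∏ P ∈ S, (dens (AdjoinRoot (P ^ 2)) * (1 - 1 / q ^ (2 * P.natDegree))) :=
    Finset.prod_le_prod (fun P _ => by positivity) hSq
  have hPS0 : 0 ≤ ∏ P ∈ S, ((Wm (P ^ 2)).ncard : ℝ) / q ^ (6 * (P ^ 2).natDegree) :=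
    Finset.prod_nonneg fun P _ => by positivity
  have hA := hLin 0 (Or.inl rfl)
  have hB := hLin 1 (Or.inr rfl)
  have hK0 : 0 ≤ U / q ^ 3 / 2 * (1 - 1 / q ^ 2) := by positivity
  have hKK : ((Wm (pc (0 : F))).ncard : ℝ) / q ^ (6 * (pc (0 : F)).natDegree) *
      (((Wm (pc (1 : F))).ncard : ℝ) / q ^ (6 * (pc (1 : F)).natDegree) *
      ∏ P ∈ S, ((Wm (P ^ 2)).ncard : ℝ) / q ^ (6 * (P ^ 2).natDegree)) ≤
      (U / q ^ 3 / 2 * (1 - 1 / q ^ 2)) * ((U / q ^ 3 / 2 * (1 - 1 / q ^ 2)) *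
        ∏ P ∈ S, (dens (AdjoinRoot (P ^ 2)) * (1 - 1 / q ^ (2 * P.natDegree)))) := by
    refine mul_le_mul hA (mul_le_mul hB hPS hPS0 hK0) ?_ hK0
    exact mul_nonneg (by positivity) hPS0
  have hfin : q ^ (12 * n + 6) * ((U / q ^ 3 / 2 * (1 - 1 / q ^ 2)) *
      ((U / q ^ 3 / 2 * (1 - 1 / q ^ 2)) *
        ∏ P ∈ S, (dens (AdjoinRoot (P ^ 2)) * (1 - 1 / q ^ (2 * P.natDegree))))) *
      (R / q ^ 3 * (1 - 1 / q ^ 2)) =
      q ^ (12 * n + 6) * (dd F S / 4 * (1 - 1 / q ^ 2) ^ 3) *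
        ∏ P ∈ S, (1 - 1 / q ^ (2 * P.natDegree)) := by
    unfold dd d3 d12
    rw [Finset.prod_mul_distrib, ← hq, ← hR, ← hU]
    ring
  rw [← hfin]
  refine mul_le_mul (mul_le_mul_of_nonneg_left hKK (by positivity)) hVc (by positivity) ?_
  refine mul_nonneg (by positivity) (mul_nonneg hK0 (mul_nonneg hK0 ?_))
  exact hPS0.trans hPS

end Pool.RZ
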